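import Pool.Agent.Y18.LC.Stm2
import Pool.Agent.Y447.LC.NSP

/-!
# An element whose multiples divide powers has no zero at a nonsplit prime, over a general base
-/

set_option autoImplicit false

namespace Pool.Agent.Y37.LC

open NumberField IsDedekindDomain Pool.Agent.Y447.LC

theorem nsp2 : Pool.Agent.Y18.LC.NSP2 := by
  intro K k _ _ _ _ _ v huniq a n h
  by_contra hlt
  push Not at hlt
  have hcoe : ∀ s : 𝓞 K, ((algebraMap (𝓞 K) (𝓞 k) s : 𝓞 k) : k) = algebraMap K k (s : K) :=
    fun s => rfl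
  have hinj : Function.Injective (algebraMap (𝓞 K) (𝓞 k)) := by
    intro x y hxy
    have h1 := congrArg (fun z : 𝓞 k => (z : k)) hxy
    beta_reduce at h1
    rw [hcoe, hcoe] at h1
    exact RingOfIntegers.coe_injective ((algebraMap K k).injective h1)
  have hP0 : v.asIdeal.comap (algebraMap (𝓞 K) (𝓞 k)) ≠ ⊥ := by
    intro h1
    exact v.ne_bot (Ideal.eq_bot_of_comap_eq_bot h1)
  have hPp : (v.asIdeal.comap (algebraMap (𝓞 K) (𝓞 k))).IsPrime := v.isPrime.comap _
  obtain ⟨s, hsI, hsq⟩ : ∃ s : 𝓞 K, IsIntegral ℤ (algebraMap K k s * a) ∧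
      s ∉ v.asIdeal.comap (algebraMap (𝓞 K) (𝓞 k)) := by
    by_contra hcon
    push Not at hcon
    have hle : (mulI k (a : k)).comap (algebraMap (𝓞 K) (𝓞 k)) ≤
        v.asIdeal.comap (algebraMap (𝓞 K) (𝓞 k)) := by
      intro s hs
      apply hcon
      rw [Ideal.mem_comap, mem_mulI, hcoe] at hs
      exact hs
    obtain ⟨Q, hQI, hQp, hQc⟩ := Ideal.exists_ideal_over_prime_of_isIntegral
      (v.asIdeal.comap (algebraMap (𝓞 K) (𝓞 k))) (mulI k (a : k)) hle
    have hQ0 : Q ≠ ⊥ := by
      rintro rfl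
      apply hP0
      rw [← hQc]
      exact Ideal.comap_bot_of_injective _ hinj
    have hv' := huniq ⟨Q, hQp, hQ0⟩ hQc
    have hIv : mulI k (a : k) ≤ v.asIdeal := by
      rw [← hv']
      exact hQI
    obtain ⟨m, d, hmd⟩ := v.exists_primeCompl_mul_eq_of_integer (a : k) hlt.le
    have hd : (d : 𝓞 k) ∈ mulI k (a : k) := by
      rw [mem_mulI]
      have h2 : ((d : 𝓞 k) : k) * (a : k) = algebraMap (𝓞 k) k m := by
        rw [mul_comm]
        exact hmd
      rw [h2]
      exact RingOfIntegers.isIntegral_coe m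
    exact d.2 (hIv hd)
  have hs0 : s ≠ 0 := by
    rintro rfl
    exact hsq (Ideal.zero_mem _)
  have hsv : algebraMap (𝓞 K) (𝓞 k) s ∉ v.asIdeal := fun hs => hsq (Ideal.mem_comap.2 hs)
  have hvs : v.valuation k (algebraMap K k (s : K)) = 1 := by
    have h1 := (HeightOneSpectrum.valuation_eq_one_iff_notMem (K := k) (v := v)
      (r := algebraMap (𝓞 K) (𝓞 k) s)).2 hsv
    exact h1
  have ha0 : (a : k) ≠ 0 := a.ne_zero
  have hsk : algebraMap K k (s : K) ≠ 0 := by
    intro h1
    have h2 := (map_eq_zero (algebraMap K k)).1 h1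
    exact hs0 (RingOfIntegers.coe_injective h2)
  have h3 := val_int_le v (h s hs0 hsI)
  have h4 : v.valuation k ((algebraMap K k (s : K)) ^ n / (algebraMap K k (s : K) * a)) *
      v.valuation k (a : k) = 1 := by
    have h5 : (algebraMap K k (s : K)) ^ n / (algebraMap K k (s : K) * a) * (a : k) =
        (algebraMap K k (s : K)) ^ n / algebraMap K k (s : K) := by
      field_simp
    rw [← map_mul, h5, map_div₀, map_pow, hvs, one_pow, div_one]
  have h6 := mul_lt_mul_of_le_of_lt_of_nonneg_of_pos h3 hlt (by simp) (by simp)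
  rw [h4] at h6
  simp at h6

end Pool.Agent.Y37.LC
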